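import Mathlib

/-!
# Minimal normal subgroups of Leinster groups

`sig G` is the sum of the orders of the normal subgroups of `G`.
-/

set_option autoImplicit false

namespace Pool.Agent.H86.Lei

open Subgroup

/-- `sig G`: the sum of the orders of the normal subgroups of `G`. -/
noncomputable def sig (G : Type*) [Group G] : ℕ :=
  ∑ᶠ N : {N : Subgroup G // N.Normal}, Nat.card (N : Subgroup G)

section basic
variable {G : Type*} [Group G]

/-- the sum of the orders of the members of a set of subgroups -/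
noncomputable def ns (S : Set (Subgroup G)) : ℕ := ∑ᶠ N ∈ S, Nat.card N

theorem sig_eq : sig G = ns {N : Subgroup G | N.Normal} :=
  finsum_set_coe_eq_finsum_mem (f := fun N : Subgroup G => Nat.card N) _

variable [Finite G]

theorem ns_mono {S T : Set (Subgroup G)} (h : S ⊆ T) : ns S ≤ ns T := by
  unfold ns
  rw [finsum_mem_eq_finite_toFinset_sum _ (Set.toFinite S),
    finsum_mem_eq_finite_toFinset_sum _ (Set.toFinite T)]
  apply Finset.sum_le_sum_of_subset
  intro x hx
  simp only [Set.Finite.mem_toFinset] at hx ⊢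
  exact h hx

theorem ns_union {S T : Set (Subgroup G)} (h : Disjoint S T) : ns (S ∪ T) = ns S + ns T :=
  finsum_mem_union h (Set.toFinite _) (Set.toFinite _)

theorem ns_singleton (N : Subgroup G) : ns {N} = Nat.card N := finsum_mem_singleton

theorem ns_pos {S : Set (Subgroup G)} {N : Subgroup G} (h : N ∈ S) : 0 < ns S := by
  have h1 : ns {N} ≤ ns S := ns_mono (Set.singleton_subset_iff.2 h)
  rw [ns_singleton] at h1
  exact lt_of_lt_of_le Nat.card_pos h1

theorem ns_eq {S T : Set (Subgroup G)} (h : S ⊆ T) (he : ns T ≤ ns S) : S = T := by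
  by_contra hne
  obtain ⟨N, hN, hN'⟩ : ∃ N, N ∈ T ∧ N ∉ S := by
    by_contra hc
    push Not at hc
    exact hne (Set.Subset.antisymm h hc)
  have h1 : S ∪ {N} ⊆ T := Set.union_subset h (Set.singleton_subset_iff.2 hN)
  have h2 := ns_mono h1
  rw [ns_union (Set.disjoint_singleton_right.2 hN'), ns_singleton] at h2
  have : 0 < Nat.card N := Nat.card_pos
  omega

theorem ns_dvd {S : Set (Subgroup G)} {v : ℕ} (h : ∀ N ∈ S, Nat.card N = v) : v ∣ ns S := by
  unfold ns
  rw [finsum_mem_eq_finite_toFinset_sum _ (Set.toFinite S)]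
  apply Finset.dvd_sum
  intro x hx
  simp only [Set.Finite.mem_toFinset] at hx
  rw [h x hx]

end basic

section maps
variable {G : Type*} [Group G] [Finite G]
variable {K : Type*} [Group K] [Finite K]

theorem ns_image {S : Set (Subgroup G)} (f : Subgroup G → Subgroup K) (hf : Set.InjOn f S)
    (hc : ∀ N ∈ S, Nat.card (f N) = Nat.card N) : ns (f '' S) = ns S := by
  unfold ns
  rw [finsum_mem_image hf]
  exact finsum_mem_congr rfl hc

theorem sig_congr (e : G ≃* K) : sig G = sig K := by
  rw [sig_eq, sig_eq]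
  have h1 : {N : Subgroup K | N.Normal} = (fun N => N.map e.toMonoidHom) '' {N : Subgroup G | N.Normal} := by
    ext N
    constructor
    · intro hN
      refine ⟨N.comap e.toMonoidHom, Normal.comap hN _, ?_⟩
      exact map_comap_eq_self_of_surjective e.surjective N
    · rintro ⟨N, hN, rfl⟩
      exact Normal.map hN _ e.surjective
  rw [h1, ns_image]
  · exact (map_injective e.injective).injOn
  · intro N _
    exact (Nat.card_congr (N.equivMapOfInjective e.toMonoidHom e.injective).toEquiv).symm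

end maps

section cards
variable {G : Type*} [Group G] [Finite G]

theorem card_relIndex {A B : Subgroup G} (h : A ≤ B) : Nat.card A * A.relIndex B = Nat.card B := by
  have h1 := (A.subgroupOf B).card_mul_index
  have h2 : Nat.card (A.subgroupOf B) = Nat.card A :=
    Nat.card_congr (subgroupOfEquivOfLe h).toEquiv
  rw [h2] at h1
  exact h1

theorem card_sup (A N : Subgroup G) [N.Normal] :
    Nat.card (A ⊔ N : Subgroup G) * Nat.card (N ⊓ A : Subgroup G) = Nat.card N * Nat.card A := by
  have h1 := card_relIndex (le_sup_right : N ≤ A ⊔ N)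
  rw [relIndex_sup_right] at h1
  have h2 := card_relIndex (inf_le_right : N ⊓ A ≤ A)
  rw [inf_relIndex_right] at h2
  rw [← h1, ← h2]
  ring

theorem card_sup_disjoint (A N : Subgroup G) [N.Normal] (h : N ⊓ A = ⊥) :
    Nat.card (A ⊔ N : Subgroup G) = Nat.card N * Nat.card A := by
  have h1 := card_sup A N
  rw [h, card_bot, mul_one] at h1
  exact h1

theorem eq_of_card {A B : Subgroup G} (h : A ≤ B) (hc : Nat.card B ≤ Nat.card A) : A = B :=
  eq_of_le_of_card_ge h hc

end cards

/-- `V` is a minimal normal subgroup of `G`. -/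
structure MinNormal {G : Type*} [Group G] (V : Subgroup G) : Prop where
  normal : V.Normal
  ne_bot : V ≠ ⊥
  min : ∀ N : Subgroup G, N.Normal → N ≤ V → N = ⊥ ∨ N = V

section quot
variable {G : Type*} [Group G] [Finite G]

theorem card_comap_mk (V : Subgroup G) [V.Normal] (N : Subgroup (G ⧸ V)) :
    Nat.card (N.comap (QuotientGroup.mk' V)) = Nat.card V * Nat.card N := by
  have h1 := (N.comap (QuotientGroup.mk' V)).card_mul_index
  have h2 := N.card_mul_index
  have h3 := index_comap_of_surjective N (QuotientGroup.mk'_surjective V)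
  have h4 := card_eq_card_quotient_mul_card_subgroup V
  rw [h3] at h1
  have h5 : 0 < N.index := Nat.pos_of_ne_zero FiniteIndex.index_ne_zero
  apply Nat.eq_of_mul_eq_mul_right h5
  rw [h1, h4, ← h2]
  ring

theorem card_map_mk (V : Subgroup G) [V.Normal] {N : Subgroup G} (h : N ⊓ V = ⊥) :
    Nat.card (N.map (QuotientGroup.mk' V)) = Nat.card N := by
  symm
  apply Nat.card_congr
  refine Equiv.ofBijective (fun x : N => ⟨QuotientGroup.mk' V x, mem_map_of_mem _ x.2⟩) ⟨?_, ?_⟩
  · intro x y hxy
    have h1 : (QuotientGroup.mk' V) (x : G) = (QuotientGroup.mk' V) (y : G) := by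
      simpa using hxy
    have h2 : (x : G)⁻¹ * y ∈ V := QuotientGroup.eq.1 h1
    have h3 : (x : G)⁻¹ * y ∈ N ⊓ V := ⟨N.mul_mem (N.inv_mem x.2) y.2, h2⟩
    rw [h, mem_bot] at h3
    exact Subtype.ext (inv_mul_eq_one.1 h3)
  · rintro ⟨y, x, hx, rfl⟩
    exact ⟨⟨x, hx⟩, rfl⟩

/-- normal subgroups meeting `V` trivially -/
def TT (V : Subgroup G) : Set (Subgroup G) := {N | N.Normal ∧ N ⊓ V = ⊥}

theorem ns_ge (V : Subgroup G) [V.Normal] :
    ns {N : Subgroup G | N.Normal ∧ V ≤ N} = Nat.card V * sig (G ⧸ V) := by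
  have him : {N : Subgroup G | N.Normal ∧ V ≤ N} =
      (fun N' : Subgroup (G ⧸ V) => N'.comap (QuotientGroup.mk' V)) '' {N' | N'.Normal} := by
    ext N
    constructor
    · rintro ⟨hN, hV⟩
      refine ⟨N.map (QuotientGroup.mk' V), hN.map _ (QuotientGroup.mk'_surjective V), ?_⟩
      show comap _ (map _ N) = N
      rw [QuotientGroup.comap_map_mk']
      exact sup_eq_right.2 hV
    · rintro ⟨N', hN', rfl⟩
      refine ⟨Normal.comap hN' _, ?_⟩
      intro x hx
      show (QuotientGroup.mk' V) x ∈ N'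
      have : (QuotientGroup.mk' V) x = 1 := (QuotientGroup.eq_one_iff x).2 hx
      rw [this]
      exact one_mem _
  rw [him, ns, finsum_mem_image, sig_eq, ns, mul_finsum_mem]
  · exact finsum_mem_congr rfl fun N' _ => card_comap_mk V N'
  · exact (comap_injective (QuotientGroup.mk'_surjective V)).injOn

theorem sig_split {V : Subgroup G} (hV : MinNormal V) [V.Normal] :
    sig G = Nat.card V * sig (G ⧸ V) + ns (TT V) := by
  have h1 : {N : Subgroup G | N.Normal} = {N : Subgroup G | N.Normal ∧ V ≤ N} ∪ TT V := by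
    ext N
    constructor
    · intro hN
      have hN' : N.Normal := hN
      rcases hV.min (N ⊓ V) inferInstance inf_le_right with h | h
      · exact Or.inr ⟨hN, h⟩
      · exact Or.inl ⟨hN, inf_eq_right.1 h⟩
    · rintro (h | h)
      · exact h.1
      · exact h.1
  have h2 : Disjoint {N : Subgroup G | N.Normal ∧ V ≤ N} (TT V) := by
    rw [Set.disjoint_left]
    rintro N ⟨_, h⟩ ⟨_, h'⟩
    rw [inf_eq_right.2 h] at h'
    exact hV.ne_bot h'
  rw [sig_eq, h1, ns_union h2, ns_ge]

theorem bot_mem_TT (V : Subgroup G) : (⊥ : Subgroup G) ∈ TT V := ⟨inferInstance, bot_inf_eq V⟩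

theorem dvd_of_map_eq {V : Subgroup G} (hV : MinNormal V) [V.Normal] {A B : Subgroup G}
    (hA : A ∈ TT V) (hB : B ∈ TT V)
    (hm : A.map (QuotientGroup.mk' V) = B.map (QuotientGroup.mk' V)) (hne : A ≠ B) :
    Nat.card V ∣ Nat.card B := by
  have : A.Normal := hA.1
  have : B.Normal := hB.1
  have hc : Nat.card A = Nat.card B := by
    rw [← card_map_mk V hA.2, ← card_map_mk V hB.2, hm]
  have h1 : V ≤ A ⊔ B := by
    rcases hV.min ((A ⊔ B) ⊓ V) inferInstance inf_le_right with h | h
    · exfalso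
      have h2 := card_map_mk V h
      rw [Subgroup.map_sup, ← hm, sup_idem, card_map_mk V hA.2] at h2
      have h3 : A = A ⊔ B := eq_of_card le_sup_left h2.ge
      have h4 : B = A ⊔ B := eq_of_card le_sup_right (by rw [← hc]; exact h2.ge)
      exact hne (h3.trans h4.symm)
    · exact inf_eq_right.1 h
  have h5 : A ⊔ B = A ⊔ V := by
    apply le_antisymm
    · apply sup_le le_sup_left
      have h6 : B ≤ V ⊔ B := le_sup_right
      rw [← QuotientGroup.comap_map_mk' V B, ← hm, QuotientGroup.comap_map_mk' V A, sup_comm] at h6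
      exact h6
    · exact sup_le le_sup_left h1
  have h7 := card_sup A B
  have h8 := card_sup_disjoint A V (by rw [inf_comm]; exact hA.2)
  rw [h5, h8] at h7
  have h9 : 0 < Nat.card A := Nat.card_pos
  refine ⟨Nat.card (B ⊓ A : Subgroup G), ?_⟩
  apply Nat.eq_of_mul_eq_mul_right h9
  rw [← h7]
  ring

theorem injOn {V : Subgroup G} (hV : MinNormal V) [V.Normal]
    (hd : ¬ Nat.card V ∣ Nat.card (G ⧸ V)) :
    Set.InjOn (fun N : Subgroup G => N.map (QuotientGroup.mk' V)) (TT V) := by
  intro A hA B hB h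
  by_contra hne
  apply hd
  refine (dvd_of_map_eq hV hA hB h hne).trans ?_
  rw [← card_map_mk V hB.2]
  exact card_subgroup_dvd_card _

theorem image_normal {V : Subgroup G} [V.Normal] {S : Set (Subgroup G)} (hS : S ⊆ TT V) :
    (fun N : Subgroup G => N.map (QuotientGroup.mk' V)) '' S ⊆
      {N : Subgroup (G ⧸ V) | N.Normal} := by
  rintro _ ⟨N, hN, rfl⟩
  exact Normal.map (hS hN).1 _ (QuotientGroup.mk'_surjective V)

theorem ns_sub {V : Subgroup G} [V.Normal] {S : Set (Subgroup G)} (hS : S ⊆ TT V)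
    (hi : Set.InjOn (fun N : Subgroup G => N.map (QuotientGroup.mk' V)) S) :
    ns ((fun N : Subgroup G => N.map (QuotientGroup.mk' V)) '' S) = ns S :=
  ns_image _ hi fun _ hN => card_map_mk V (hS hN).2

/-- If no member of `S` maps onto `G ⧸ V` then the sum over `S` is at most
`sig (G ⧸ V) - |G ⧸ V|`. -/
theorem ns_add_le {V : Subgroup G} [V.Normal] {S : Set (Subgroup G)} (hS : S ⊆ TT V)
    (hi : Set.InjOn (fun N : Subgroup G => N.map (QuotientGroup.mk' V)) S)
    (hc : ∀ N ∈ S, N.map (QuotientGroup.mk' V) ≠ ⊤) :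
    ns S + Nat.card (G ⧸ V) ≤ sig (G ⧸ V) := by
  have h1 : Disjoint ((fun N : Subgroup G => N.map (QuotientGroup.mk' V)) '' S)
      ({⊤} : Set (Subgroup (G ⧸ V))) := by
    rw [Set.disjoint_singleton_right]
    rintro ⟨N, hN, h⟩
    exact hc N hN h
  have h2 := ns_union h1
  rw [ns_singleton, card_top, ns_sub hS hi] at h2
  rw [← h2, sig_eq]
  apply ns_mono
  apply Set.union_subset (image_normal hS)
  rw [Set.singleton_subset_iff]
  exact (inferInstance : (⊤ : Subgroup (G ⧸ V)).Normal)

theorem map_eq_top_iff {V : Subgroup G} [V.Normal] (N : Subgroup G) :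
    N.map (QuotientGroup.mk' V) = ⊤ ↔ V ⊔ N = ⊤ := by
  constructor
  · intro h
    rw [← QuotientGroup.comap_map_mk' V N, h, comap_top]
  · intro h
    have h1 := QuotientGroup.comap_map_mk' V N
    rw [h] at h1
    rw [← map_comap_eq_self_of_surjective (QuotientGroup.mk'_surjective V)
      (N.map (QuotientGroup.mk' V)), h1]
    exact map_top_of_surjective _ (QuotientGroup.mk'_surjective V)

/-- With a normal complement every normal subgroup of the quotient is hit. -/
theorem image_eq {V : Subgroup G} [V.Normal] {H : Subgroup G} (hH : H ∈ TT V) (hs : V ⊔ H = ⊤) :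
    (fun N : Subgroup G => N.map (QuotientGroup.mk' V)) '' TT V =
      {N : Subgroup (G ⧸ V) | N.Normal} := by
  apply Set.Subset.antisymm (image_normal (Set.Subset.refl _))
  intro M hM
  have hMn : M.Normal := hM
  have hHn : H.Normal := hH.1
  have hn : (M.comap (QuotientGroup.mk' V)).Normal := Normal.comap hMn _
  refine ⟨H ⊓ M.comap (QuotientGroup.mk' V), ⟨inferInstance, ?_⟩, ?_⟩
  · apply le_antisymm _ bot_le
    rw [← hH.2]
    exact inf_le_inf_right V inf_le_left
  · apply le_antisymm
    · rintro _ ⟨x, hx, rfl⟩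
      exact hx.2
    · intro y hy
      have hy' : y ∈ H.map (QuotientGroup.mk' V) := by
        rw [(map_eq_top_iff H).2 hs]
        exact mem_top y
      obtain ⟨x, hx, rfl⟩ := hy'
      exact ⟨x, ⟨hx, hy⟩, rfl⟩

theorem ns_eq_sig {V : Subgroup G} (hV : MinNormal V) [V.Normal]
    (hd : ¬ Nat.card V ∣ Nat.card (G ⧸ V)) {H : Subgroup G} (hH : H ∈ TT V) (hs : V ⊔ H = ⊤) :
    ns (TT V) = sig (G ⧸ V) := by
  rw [← ns_sub (Set.Subset.refl _) (injOn hV hd), image_eq hH hs, sig_eq]

/-- the quotient by `V` is isomorphic to a normal complement -/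
theorem sig_compl {V : Subgroup G} [V.Normal] {H : Subgroup G} (hH : H ∈ TT V)
    (hs : V ⊔ H = ⊤) : sig H = sig (G ⧸ V) ∧ Nat.card H = Nat.card (G ⧸ V) := by
  have hb : Function.Bijective ((QuotientGroup.mk' V).comp H.subtype) := by
    constructor
    · intro x y hxy
      have h1 : (QuotientGroup.mk' V) (x : G) = (QuotientGroup.mk' V) (y : G) := by
        simpa using hxy
      have h2 : (x : G)⁻¹ * y ∈ V := QuotientGroup.eq.1 h1
      have h3 : (x : G)⁻¹ * y ∈ H ⊓ V := ⟨H.mul_mem (H.inv_mem x.2) y.2, h2⟩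
      rw [hH.2, mem_bot] at h3
      exact Subtype.ext (inv_mul_eq_one.1 h3)
    · intro y
      have hy' : y ∈ H.map (QuotientGroup.mk' V) := by
        rw [(map_eq_top_iff H).2 hs]
        exact mem_top y
      obtain ⟨x, hx, rfl⟩ := hy'
      exact ⟨⟨x, hx⟩, rfl⟩
  exact ⟨sig_congr (MulEquiv.ofBijective _ hb), Nat.card_congr (Equiv.ofBijective _ hb)⟩

theorem sig_ge_card : Nat.card G ≤ sig G := by
  have h := ns_mono (S := ({⊤} : Set (Subgroup G))) (T := {N : Subgroup G | N.Normal})
    (Set.singleton_subset_iff.2 (inferInstance : (⊤ : Subgroup G).Normal))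
  rw [ns_singleton, card_top] at h
  rw [sig_eq]
  exact h

end quot

end Pool.Agent.H86.Lei
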