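import Pool.Agent.H86.Lei

set_option autoImplicit false

namespace Pool.Agent.H86.Lei

open Subgroup

variable {G : Type*} [Group G] [Finite G]

theorem two_le {V : Subgroup G} (hV : MinNormal V) : 2 ≤ Nat.card V := by
  by_contra h
  have h1 : 0 < Nat.card V := Nat.card_pos
  have h2 : Nat.card V = 1 := by omega
  exact hV.ne_bot ((card_eq_one).1 h2)

/-- the general inequality, `|V|` not dividing `|G ⧸ V|` -/
theorem main1 {V : Subgroup G} (hV : MinNormal V) [V.Normal]
    (hd : ¬ Nat.card V ∣ Nat.card (G ⧸ V)) (hL : sig G = 2 * Nat.card G) :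
    sig (G ⧸ V) < 2 * Nat.card (G ⧸ V) ∧
    (((Nat.card V + 1) * (2 * Nat.card (G ⧸ V)) ≤
        Nat.card (G ⧸ V) + (Nat.card V + 1) * sig (G ⧸ V) ∧
      ¬ ∃ H ∈ TT V, V ⊔ H = ⊤) ∨
    ((Nat.card V + 1) * (2 * Nat.card (G ⧸ V)) =
        2 * Nat.card (G ⧸ V) + (Nat.card V + 1) * sig (G ⧸ V) ∧
      ∃ H ∈ TT V, V ⊔ H = ⊤)) := by
  have h1 := sig_split hV
  have h2 := card_eq_card_quotient_mul_card_subgroup V
  have h3 : 0 < ns (TT V) := ns_pos (bot_mem_TT V)
  have h4 := two_le hV
  rw [hL, h2] at h1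
  set v := Nat.card V
  set m := Nat.card (G ⧸ V)
  set s := sig (G ⧸ V)
  set t := ns (TT V)
  refine ⟨?_, ?_⟩
  · by_contra hc
    push Not at hc
    have : v * (2 * m) ≤ v * s := Nat.mul_le_mul_left v hc
    nlinarith
  · by_cases hc : ∃ H ∈ TT V, V ⊔ H = ⊤
    · right
      refine ⟨?_, hc⟩
      obtain ⟨H, hH, hs⟩ := hc
      have h5 : t = s := ns_eq_sig hV hd hH hs
      rw [h5] at h1
      nlinarith
    · left
      refine ⟨?_, hc⟩
      have h5 : t + m ≤ s := by
        apply ns_add_le (Set.Subset.refl _) (injOn hV hd)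
        intro N hN hN'
        exact hc ⟨N, hN, (map_eq_top_iff N).1 hN'⟩
      nlinarith

/-- a minimal normal direct factor is simple -/
theorem simple_of_compl {V : Subgroup G} (hV : MinNormal V) {H : Subgroup G} (hH : H ∈ TT V)
    (hs : V ⊔ H = ⊤) : IsSimpleGroup V := by
  have hVn : V.Normal := hV.normal
  have hHn : H.Normal := hH.1
  have hcomm : ∀ x ∈ V, ∀ y ∈ H, Commute x y := by
    intro x hx y hy
    exact commute_of_normal_of_disjoint V H hVn hHn
      (disjoint_iff.2 (by rw [inf_comm]; exact hH.2)) x y hx hy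
  have hnt : Nontrivial V := (nontrivial_iff_ne_bot V).2 hV.ne_bot
  refine ⟨fun K hK => ?_⟩
  have hKn : (K.map V.subtype).Normal := by
    constructor
    rintro _ ⟨x, hx, rfl⟩ g
    have hg : g ∈ V ⊔ H := by rw [hs]; exact mem_top g
    rw [← SetLike.mem_coe, mul_normal V H] at hg
    obtain ⟨a, ha, b, hb, rfl⟩ := hg
    have h1 : b * (x : G) * b⁻¹ = x := by
      rw [← (hcomm x x.2 b hb).eq, mul_assoc, mul_inv_cancel, mul_one]
    refine ⟨⟨a, ha⟩ * x * ⟨a, ha⟩⁻¹, hK.conj_mem x hx _, ?_⟩
    show a * (x : G) * a⁻¹ = (a * b) * x * (a * b)⁻¹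
    conv_lhs => rw [← h1]
    group
  have hle : K.map V.subtype ≤ V := by
    rintro _ ⟨x, _, rfl⟩
    exact x.2
  rcases hV.min _ hKn hle with h | h
  · left
    exact (map_eq_bot_iff_of_injective K V.subtype_injective).1 h
  · right
    rw [eq_top_iff]
    intro x _
    have hx : (x : G) ∈ K.map V.subtype := by rw [h]; exact x.2
    obtain ⟨y, hy, hyx⟩ := hx
    have : y = x := Subtype.ext hyx
    rw [← this]
    exact hy

/-- `|G ⧸ V| = |V|` is impossible in a Leinster group -/
theorem ne_self {V : Subgroup G} (hV : MinNormal V) [V.Normal]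
    (hm : Nat.card (G ⧸ V) = Nat.card V) : sig G ≠ 2 * Nat.card G := by
  intro hL
  have h1 := sig_split hV
  have h2 := card_eq_card_quotient_mul_card_subgroup V
  have h4 := two_le hV
  rw [hL, h2, hm] at h1
  have hcard : ∀ N ∈ TT V, Nat.card N ≤ Nat.card V := by
    intro N hN
    rw [← card_map_mk V hN.2, ← hm]
    exact card_le_card_group _
  set T1 : Set (Subgroup G) := {N | N ∈ TT V ∧ Nat.card N < Nat.card V} with hT1
  set T2 : Set (Subgroup G) := {N | N ∈ TT V ∧ Nat.card N = Nat.card V} with hT2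
  have hsp : TT V = T1 ∪ T2 := by
    ext N
    constructor
    · intro hN
      rcases lt_or_eq_of_le (hcard N hN) with h | h
      · exact Or.inl ⟨hN, h⟩
      · exact Or.inr ⟨hN, h⟩
    · rintro (h | h)
      · exact h.1
      · exact h.1
  have hdis : Disjoint T1 T2 := by
    rw [Set.disjoint_left]
    rintro N ⟨_, h⟩ ⟨_, h'⟩
    omega
  have h5 := ns_union hdis
  rw [← hsp] at h5
  have h6 : Nat.card V ∣ ns T2 := ns_dvd fun N hN => hN.2
  have h7 : ns T1 + Nat.card (G ⧸ V) ≤ sig (G ⧸ V) := by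
    apply ns_add_le (fun N hN => hN.1)
    · intro A hA B hB h
      by_contra hne
      have h8 := dvd_of_map_eq hV hA.1 hB.1 h hne
      have h9 := Nat.le_of_dvd Nat.card_pos h8
      have h10 := hB.2
      omega
    · intro N hN hN'
      have h8 := card_map_mk V hN.1.2
      rw [hN', card_top, hm] at h8
      have h9 := hN.2
      omega
  have h8 : 0 < ns T1 := ns_pos (N := ⊥) ⟨bot_mem_TT V, by rw [card_bot]; omega⟩
  rw [hm] at h7
  obtain ⟨c, hc⟩ := h6
  rw [h5, hc] at h1
  set v := Nat.card V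
  set s := sig (G ⧸ V)
  set t := ns T1
  -- v * s + (t + v * c) = 2 * (v * v)
  have h9 : v ∣ t := by
    have h10 : v ∣ v * s + (t + v * c) := by rw [← h1]; exact ⟨2 * v, by ring⟩
    have h11 : v ∣ t + v * c := (Nat.dvd_add_right ⟨s, rfl⟩).1 h10
    exact (Nat.dvd_add_left ⟨c, rfl⟩).1 h11
  have h10 := Nat.le_of_dvd h8 h9
  nlinarith

/-- **The gap.** -/
theorem gap {V : Subgroup G} (hV : MinNormal V) (hL : sig G = 2 * Nat.card G) :
    Nat.card V * (Nat.card V + 1) ≤ Nat.card G ∨
    (Nat.card V * (Nat.card V + 1) = 2 * Nat.card G ∧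
      ∃ H ∈ TT V, V ⊔ H = ⊤ ∧ sig H + 1 = 2 * Nat.card H) := by
  have hVn : V.Normal := hV.normal
  have h2 := card_eq_card_quotient_mul_card_subgroup V
  have h4 := two_le hV
  have hm0 : 0 < Nat.card (G ⧸ V) := Nat.card_pos
  by_cases hd : Nat.card V ∣ Nat.card (G ⧸ V)
  · left
    obtain ⟨j, hj⟩ := hd
    have hj0 : j ≠ 0 := by
      rintro rfl
      rw [mul_zero] at hj
      omega
    have hj1 : j ≠ 1 := by
      rintro rfl
      rw [mul_one] at hj
      exact ne_self hV hj hL
    have hj2 : 2 ≤ j := by omega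
    rw [h2, hj]
    nlinarith
  · rcases main1 hV hd hL with ⟨h5, h | h⟩
    · left
      have h6 := h.1
      rw [h2]
      nlinarith
    · obtain ⟨h6, H, hH, hs⟩ := h
      have h7 := sig_compl hH hs
      by_cases h8 : sig (G ⧸ V) + 1 = 2 * Nat.card (G ⧸ V)
      · right
        refine ⟨?_, H, hH, hs, ?_⟩
        · rw [h2]
          nlinarith
        · rw [h7.1, h7.2]
          exact h8
      · left
        have h9 : sig (G ⧸ V) + 2 ≤ 2 * Nat.card (G ⧸ V) := by omega
        rw [h2]
        nlinarith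

/-- sum formula with a normal complement -/
theorem sig_of_compl {V : Subgroup G} (hV : MinNormal V) [V.Normal]
    (hd : ¬ Nat.card V ∣ Nat.card (G ⧸ V)) {H : Subgroup G} (hH : H ∈ TT V)
    (hs : V ⊔ H = ⊤) : sig G = (Nat.card V + 1) * sig H := by
  rw [sig_split hV, ns_eq_sig hV hd hH hs, (sig_compl hH hs).1]
  ring

theorem iff1 {V : Subgroup G} (hV : MinNormal V)
    (hlt : Nat.card G < Nat.card V * (Nat.card V + 1)) :
    sig G = 2 * Nat.card G ↔ Nat.card V * (Nat.card V + 1) = 2 * Nat.card G ∧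
      ∃ H ∈ TT V, V ⊔ H = ⊤ ∧ sig H + 1 = 2 * Nat.card H := by
  constructor
  · intro hL
    rcases gap hV hL with h | h
    · omega
    · exact h
  · rintro ⟨h1, H, hH, hs, h3⟩
    have hVn : V.Normal := hV.normal
    have h2 := card_eq_card_quotient_mul_card_subgroup V
    have h4 := two_le hV
    have hm0 : 0 < Nat.card (G ⧸ V) := Nat.card_pos
    have h5 := (sig_compl hH hs).2
    have h6 : Nat.card V + 1 = 2 * Nat.card (G ⧸ V) := by
      rw [h2] at h1
      have : Nat.card V * (Nat.card V + 1) = Nat.card V * (2 * Nat.card (G ⧸ V)) := by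
        rw [h1]; ring
      exact Nat.eq_of_mul_eq_mul_left (by omega) this
    have hd : ¬ Nat.card V ∣ Nat.card (G ⧸ V) := by
      intro h
      have := Nat.le_of_dvd hm0 h
      omega
    rw [sig_of_compl hV hd hH hs, h2]
    rw [h5] at h3
    have h7 : sig H = Nat.card V := by omega
    rw [h7, h6]
    ring

theorem iff2 {V : Subgroup G} (hV : MinNormal V) [V.Normal]
    (heq : Nat.card G = Nat.card V * (Nat.card V + 1)) :
    sig G = 2 * Nat.card G ↔
      (∃ H ∈ TT V, V ⊔ H = ⊤ ∧ sig H = 2 * Nat.card V) ∨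
      ((¬ ∃ H ∈ TT V, V ⊔ H = ⊤) ∧ sig (G ⧸ V) = 2 * Nat.card V + 1 ∧
        ∀ M : Subgroup G, M.Normal → V ≤ M → M ≠ ⊤ → ∃ N ∈ TT V, V ⊔ N = M) := by
  have h2 := card_eq_card_quotient_mul_card_subgroup V
  have h4 := two_le hV
  have h6 : Nat.card (G ⧸ V) = Nat.card V + 1 := by
    rw [h2] at heq
    have : Nat.card V * Nat.card (G ⧸ V) = Nat.card V * (Nat.card V + 1) := by
      rw [← heq]; ring
    exact Nat.eq_of_mul_eq_mul_left (by omega) this
  have hd : ¬ Nat.card V ∣ Nat.card (G ⧸ V) := by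
    rw [h6]
    intro h
    have h7 : Nat.card V ∣ 1 := (Nat.dvd_add_right (dvd_refl _)).1 h
    have := Nat.le_of_dvd one_pos h7
    omega
  have himg : (¬ ∃ H ∈ TT V, V ⊔ H = ⊤) →
      Disjoint ((fun N : Subgroup G => N.map (QuotientGroup.mk' V)) '' TT V)
      ({⊤} : Set (Subgroup (G ⧸ V))) := by
    intro hc
    rw [Set.disjoint_singleton_right]
    rintro ⟨N, hN, h⟩
    exact hc ⟨N, hN, (map_eq_top_iff N).1 h⟩
  have hcup : ((fun N : Subgroup G => N.map (QuotientGroup.mk' V)) '' TT V) ∪ {⊤} ⊆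
      {N : Subgroup (G ⧸ V) | N.Normal} := by
    apply Set.union_subset (image_normal (Set.Subset.refl _))
    rw [Set.singleton_subset_iff]
    exact (inferInstance : (⊤ : Subgroup (G ⧸ V)).Normal)
  constructor
  · intro hL
    rcases main1 hV hd hL with ⟨h5, h | h⟩
    · right
      obtain ⟨h7, hc⟩ := h
      have h8 : sig (G ⧸ V) = 2 * Nat.card V + 1 := by
        rw [h6] at h5 h7
        have : sig (G ⧸ V) < 2 * Nat.card V + 2 := by omega
        nlinarith
      refine ⟨hc, h8, ?_⟩
      have h9 := ns_union (himg hc)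
      rw [ns_singleton, card_top, ns_sub (Set.Subset.refl _) (injOn hV hd), h6] at h9
      have h1 := sig_split hV
      rw [hL, heq, h8] at h1
      have h10 : ns (TT V) = Nat.card V := by nlinarith
      have h11 := ns_eq hcup (by rw [h9, h10, ← sig_eq, h8]; omega)
      intro M hM hVM hMt
      have h12 : M.map (QuotientGroup.mk' V) ∈ {N : Subgroup (G ⧸ V) | N.Normal} :=
        Normal.map hM _ (QuotientGroup.mk'_surjective V)
      rw [← h11] at h12
      rcases h12 with ⟨N, hN, h13⟩ | h13
      · refine ⟨N, hN, ?_⟩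
        have h13' : N.map (QuotientGroup.mk' V) = M.map (QuotientGroup.mk' V) := h13
        rw [← QuotientGroup.comap_map_mk' V N, h13', QuotientGroup.comap_map_mk']
        exact sup_eq_right.2 hVM
      · exfalso
        apply hMt
        have h14 := (map_eq_top_iff M).1 h13
        rw [sup_eq_right.2 hVM] at h14
        exact h14
    · left
      obtain ⟨h7, H, hH, hs⟩ := h
      refine ⟨H, hH, hs, ?_⟩
      rw [(sig_compl hH hs).1]
      rw [h6] at h7
      nlinarith
  · rintro (⟨H, hH, hs, h3⟩ | ⟨hc, h8, h9⟩)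
    · rw [sig_of_compl hV hd hH hs, h3, heq]
      ring
    · have h10 : ((fun N : Subgroup G => N.map (QuotientGroup.mk' V)) '' TT V) ∪ {⊤} =
          {N : Subgroup (G ⧸ V) | N.Normal} := by
        apply Set.Subset.antisymm hcup
        intro M hM
        have hMn : M.Normal := hM
        by_cases hMt : M = ⊤
        · right
          exact hMt
        · left
          have hcm : M.comap (QuotientGroup.mk' V) ≠ ⊤ := by
            intro h
            apply hMt
            rw [← map_comap_eq_self_of_surjective (QuotientGroup.mk'_surjective V) M, h]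
            exact map_top_of_surjective _ (QuotientGroup.mk'_surjective V)
          have hVM : V ≤ M.comap (QuotientGroup.mk' V) := by
            intro x hx
            show (QuotientGroup.mk' V) x ∈ M
            have : (QuotientGroup.mk' V) x = 1 := (QuotientGroup.eq_one_iff x).2 hx
            rw [this]
            exact one_mem _
          obtain ⟨N, hN, hs⟩ := h9 _ (Normal.comap hMn _) hVM hcm
          refine ⟨N, hN, ?_⟩
          show N.map (QuotientGroup.mk' V) = M
          have h11 : (V ⊔ N).map (QuotientGroup.mk' V) = M := by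
            rw [hs]
            exact map_comap_eq_self_of_surjective (QuotientGroup.mk'_surjective V) M
          rw [← h11, ← QuotientGroup.comap_map_mk' V N]
          exact (map_comap_eq_self_of_surjective (QuotientGroup.mk'_surjective V) _).symm
      have h11 := ns_union (himg hc)
      rw [h10, ns_singleton, card_top, ns_sub (Set.Subset.refl _) (injOn hV hd), h6, ← sig_eq,
        h8] at h11
      have h12 : ns (TT V) = Nat.card V := by omega
      rw [sig_split hV, h8, h12, heq]
      ring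

end Pool.Agent.H86.Lei
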