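import Pool.Agent.H86.Lei2

set_option autoImplicit false

namespace Pool.Agent.H86.Lei

open Subgroup

variable {G : Type*} [Group G] [Finite G]

theorem minNormal_of_prime {p : ℕ} (hp : p.Prime) {V : Subgroup G} (hn : V.Normal)
    (hc : Nat.card V = p) : MinNormal V := by
  refine ⟨hn, ?_, ?_⟩
  · rintro rfl
    rw [card_bot] at hc
    exact hp.one_lt.ne hc
  · intro N _ hN
    have h1 : Nat.card N ∣ p := by
      rw [← hc]
      exact card_dvd_of_le hN
    rcases (Nat.dvd_prime hp).1 h1 with h | h
    · left
      exact (card_eq_one).1 h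
    · right
      exact eq_of_card hN (by rw [hc, h])

theorem exists_minNormal (hG : 1 < Nat.card G) : ∃ V : Subgroup G, MinNormal V := by
  have hne : ({N : Subgroup G | N.Normal ∧ N ≠ ⊥}).Nonempty := by
    refine ⟨⊤, inferInstance, ?_⟩
    intro h
    have h1 : Nat.card (⊤ : Subgroup G) = 1 := by rw [h, card_bot]
    rw [card_top] at h1
    omega
  obtain ⟨V, hV⟩ := Set.Finite.exists_minimal (Set.toFinite _) hne
  refine ⟨V, hV.1.1, hV.1.2, ?_⟩
  intro N hN hle
  by_cases h : N = ⊥
  · exact Or.inl h
  · right
    exact le_antisymm hle (hV.2 ⟨hN, h⟩ hle)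

/-- the Sylow `p`-subgroup is normal when `|G| = p k`, `p ∤ k`, and at most `p` Sylow
subgroups exist -/
theorem normal_of_card_le {p k : ℕ} (hp : p.Prime) (hG : Nat.card G = p * k) (hk : ¬ p ∣ k)
    (hn : Sylow p G → Nat.card (Sylow p G) ≤ p) :
    ∃ V : Subgroup G, V.Normal ∧ Nat.card V = p := by
  have hfact : Fact p.Prime := ⟨hp⟩
  obtain ⟨P⟩ : Nonempty (Sylow p G) := inferInstance
  have hcard : Nat.card P = p := by
    rw [P.card_eq_multiplicity, hG, Nat.factorization_mul hp.ne_zero (by rintro rfl; simp at hk)]
    simp [hp.factorization_self, Nat.factorization_eq_zero_of_not_dvd hk]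
  have h1 := card_sylow_modEq_one p G
  have h2 := hn P
  have h3 : 0 < Nat.card (Sylow p G) := Nat.card_pos
  have h4 : Nat.card (Sylow p G) = 1 := by
    rcases lt_or_eq_of_le h2 with h | h
    · have h5 : Nat.card (Sylow p G) % p = 1 % p := h1
      rw [Nat.mod_eq_of_lt h, Nat.mod_eq_of_lt hp.one_lt] at h5
      exact h5
    · exfalso
      have h5 : Nat.card (Sylow p G) % p = 1 % p := h1
      rw [h, Nat.mod_self, Nat.mod_eq_of_lt hp.one_lt] at h5
      omega
  have hsub : Subsingleton (Sylow p G) := (Nat.card_eq_one_iff_unique.1 h4).1
  exact ⟨P, Sylow.normal_of_subsingleton P, hcard⟩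

theorem sylow_card_dvd {p k : ℕ} (hp : p.Prime) (hG : Nat.card G = p * k) (hk : ¬ p ∣ k)
    (P : Sylow p G) : Nat.card P = p ∧ Nat.card (Sylow p G) ∣ k := by
  have hfact : Fact p.Prime := ⟨hp⟩
  have hcard : Nat.card P = p := by
    rw [P.card_eq_multiplicity, hG, Nat.factorization_mul hp.ne_zero (by rintro rfl; simp at hk)]
    simp [hp.factorization_self, Nat.factorization_eq_zero_of_not_dvd hk]
  refine ⟨hcard, ?_⟩
  have h1 := P.card_dvd_index
  have h2 := (P : Subgroup G).card_mul_index
  rw [hG] at h2
  have h3 : Nat.card (P : Subgroup G) = p := hcard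
  rw [h3] at h2
  have h4 := Nat.eq_of_mul_eq_mul_left hp.pos h2
  rw [← h4]
  exact h1

theorem normal_of_le {p k : ℕ} (hp : p.Prime) (hG : Nat.card G = p * k) (hk : ¬ p ∣ k)
    (hle : k ≤ p) : ∃ V : Subgroup G, V.Normal ∧ Nat.card V = p := by
  apply normal_of_card_le hp hG hk
  intro P
  have hk0 : 0 < k := Nat.pos_of_ne_zero (by rintro rfl; simp at hk)
  exact (Nat.le_of_dvd hk0 (sylow_card_dvd hp hG hk P).2).trans hle

/-- In a Leinster group with `|G| ≤ p (p + 1)` the prime `p` is the order of a normal subgroup. -/
theorem exists_normal {p : ℕ} (hp : p.Prime) (hd : p ∣ Nat.card G)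
    (hle : Nat.card G ≤ p * (p + 1)) (hL : sig G = 2 * Nat.card G) :
    ∃ V : Subgroup G, V.Normal ∧ Nat.card V = p := by
  have hfact : Fact p.Prime := ⟨hp⟩
  obtain ⟨k, hk⟩ := hd
  have hp2 := hp.two_le
  have hk0 : k ≠ 0 := by
    rintro rfl
    have : 0 < Nat.card G := Nat.card_pos
    omega
  have hkp : k ≤ p + 1 := by
    rw [hk] at hle
    exact Nat.le_of_mul_le_mul_left hle hp.pos
  obtain ⟨V, hV⟩ := exists_minNormal (G := G) (by rw [hk]; nlinarith [Nat.pos_of_ne_zero hk0])
  have hVn := hV.normal
  have hVc : Nat.card V ∣ Nat.card G := card_subgroup_dvd_card V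
  have hV2 := two_le hV
  by_cases hpk : p ∣ k
  · obtain ⟨i, hi⟩ := hpk
    have hi1 : i = 1 := by
      have h1 : i ≠ 0 := by rintro rfl; simp at hi; exact hk0 hi
      by_contra h2
      have h3 : 2 ≤ i := by omega
      rw [hi] at hkp
      nlinarith
    rw [hi1, mul_one] at hi
    rw [hi] at hk
    have h1 : Nat.card V ∣ p ^ 2 := by rw [sq, ← hk]; exact hVc
    obtain ⟨j, hj, hj'⟩ := (Nat.dvd_prime_pow hp).1 h1
    interval_cases j
    · rw [pow_zero] at hj'
      omega
    · exact ⟨V, hVn, by rw [hj', pow_one]⟩
    · exfalso
      rcases gap hV hL with h | h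
      · rw [hj', hk] at h
        nlinarith [pow_pos hp.pos 2]
      · have h2 := h.1
        rw [hj', hk] at h2
        have h3 : p * p * (p ^ 2 + 1) = p * p * 2 := by rw [← sq]; rw [h2]; ring
        have h4 := Nat.eq_of_mul_eq_mul_left (Nat.mul_pos hp.pos hp.pos) h3
        nlinarith [Nat.pow_le_pow_left hp2 2]
  · by_cases hkp' : k ≤ p
    · exact normal_of_le hp hk hpk hkp'
    · have hk1 : k = p + 1 := by omega
      subst hk1
      -- analyse the minimal normal subgroup `V`
      rw [hk] at hVc
      rcases gap hV hL with h | h
      · rw [hk] at h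
        have hv : Nat.card V ≤ p := by
          by_contra hc
          push Not at hc
          nlinarith
        by_cases hpv : p ∣ Nat.card V
        · have := Nat.le_of_dvd Nat.card_pos hpv
          exact ⟨V, hVn, by omega⟩
        · have hvp : Nat.card V < p := by
            rcases lt_or_eq_of_le hv with h1 | h1
            · exact h1
            · exfalso
              rw [h1] at hpv
              exact hpv (dvd_refl p)
          apply normal_of_card_le hp hk hpk
          intro P
          by_contra hc
          push Not at hc
          obtain ⟨hPc, hPd⟩ := sylow_card_dvd hp hk hpk P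
          have hn1 : Nat.card (Sylow p G) = p + 1 := by
            have := Nat.le_of_dvd (by omega) hPd
            omega
          have h2 := P.card_eq_index_normalizer
          have h3 := (normalizer (P : Set G)).card_mul_index
          rw [← h2, hn1, hk] at h3
          have h4 : Nat.card (normalizer (P : Set G)) = p :=
            Nat.eq_of_mul_eq_mul_right (by omega) h3
          -- `P` is normal in `P ⊔ V`
          have hPn : Nat.card (P : Subgroup G) = p := hPc
          have h5 := card_sup (P : Subgroup G) V
          have h6 : Nat.card (V ⊓ (P : Subgroup G) : Subgroup G) = 1 := by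
            have h7 : Nat.card (V ⊓ (P : Subgroup G) : Subgroup G) ∣ Nat.card (P : Subgroup G) :=
              card_dvd_of_le inf_le_right
            rw [hPn] at h7
            have h8 : Nat.card (V ⊓ (P : Subgroup G) : Subgroup G) ∣ Nat.card V :=
              card_dvd_of_le inf_le_left
            rcases (Nat.dvd_prime hp).1 h7 with h9 | h9
            · exact h9
            · exfalso
              rw [h9] at h8
              exact hpv h8
          rw [h6, mul_one, hPn] at h5
          have h7 : ((P : Subgroup G).subgroupOf ((P : Subgroup G) ⊔ V)).Normal := by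
            have hle' : (P : Subgroup G) ≤ (P : Subgroup G) ⊔ V := le_sup_left
            have h8 := card_sylow_modEq_one p ((P : Subgroup G) ⊔ V : Subgroup G)
            have h9 := (sylow_card_dvd (G := ((P : Subgroup G) ⊔ V : Subgroup G)) hp
              (by rw [h5, mul_comm]) hpv (P.subtype hle')).2
            have h10 := Nat.le_of_dvd Nat.card_pos h9
            have h11 : Nat.card (Sylow p ((P : Subgroup G) ⊔ V : Subgroup G)) = 1 := by
              have h12 : Nat.card (Sylow p ((P : Subgroup G) ⊔ V : Subgroup G)) % p = 1 % p := h8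
              rw [Nat.mod_eq_of_lt (by omega), Nat.mod_eq_of_lt hp.one_lt] at h12
              exact h12
            have hsub : Subsingleton (Sylow p ((P : Subgroup G) ⊔ V : Subgroup G)) :=
              (Nat.card_eq_one_iff_unique.1 h11).1
            have h13 := Sylow.normal_of_subsingleton (P.subtype hle')
            rwa [Sylow.coe_subtype] at h13
          have h8 : (P : Subgroup G) ⊔ V ≤ normalizer (P : Set G) :=
            (normal_subgroupOf_iff_le_normalizer le_sup_left).1 h7
          have h9 : Nat.card V ∣ Nat.card (normalizer (P : Set G)) :=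
            card_dvd_of_le (le_sup_right.trans h8)
          rw [h4] at h9
          rcases (Nat.dvd_prime hp).1 h9 with h10 | h10
          · omega
          · omega
      · obtain ⟨h1, H, hH, hs, h2⟩ := h
        have h3 := card_eq_card_quotient_mul_card_subgroup V
        have h4 := (sig_compl hH hs).2
        rw [← h4, hk] at h3
        rw [hk] at h1
        -- `card H * card V = p * (p + 1)`, `card V * (card V + 1) = 2 * (p * (p + 1))`
        have hH0 : 0 < Nat.card H := Nat.card_pos
        have h5 : Nat.card V + 1 = 2 * Nat.card H := by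
          have : Nat.card V * (Nat.card V + 1) = Nat.card V * (2 * Nat.card H) := by
            rw [h1, h3]; ring
          exact Nat.eq_of_mul_eq_mul_left (by omega) this
        have h6 : p ∣ Nat.card H * Nat.card V := by rw [← h3]; exact ⟨p + 1, rfl⟩
        rcases (hp.dvd_mul).1 h6 with h7 | h7
        · obtain ⟨i, hi⟩ := h7
          rw [hi] at h3 h5
          have h8 : p + 1 = i * Nat.card V := by
            apply Nat.eq_of_mul_eq_mul_left hp.pos
            rw [h3]; ring
          have hi0 : i ≠ 0 := by
            rintro rfl
            rw [mul_zero] at hi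
            omega
          by_cases hi1 : i = 1
          · subst hi1
            refine ⟨H, hH.1, ?_⟩
            rw [hi, mul_one]
          · exfalso
            have hi2 : 2 ≤ i := by omega
            have h9 : Nat.card V = 2 * (p * i) - 1 := by omega
            have h10 : 3 * p ≤ Nat.card V := by
              have : 2 * p ≤ p * i := by nlinarith
              omega
            nlinarith
        · exfalso
          obtain ⟨j, hj⟩ := h7
          rw [hj] at h3 h5
          have h8 : p + 1 = Nat.card H * j := by
            apply Nat.eq_of_mul_eq_mul_left hp.pos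
            rw [h3]; ring
          have hj0 : j ≠ 0 := by
            rintro rfl
            rw [mul_zero] at hj
            omega
          -- `p * j + 1 = 2 * card H`
          have h9 : j * (p * j + 1) = 2 * (p + 1) := by
            rw [h5, h8]; ring
          by_cases hj1 : j = 1
          · subst hj1
            omega
          · have hj2 : 2 ≤ j := by omega
            nlinarith [Nat.mul_le_mul hj2 hj2, hp.pos]

end Pool.Agent.H86.Lei
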