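import Pool.Agent.H86.Lei3

set_option autoImplicit false

namespace Pool.Agent.H86.Lei

open Subgroup

variable {G : Type*} [Group G] [Finite G]

/-- odd prime divisors of the order of a group with `sig G = 2 |G| - 1` -/
theorem odd_prime_sq {r : ℕ} (hr : r.Prime) (hr2 : r ≠ 2) (hd : r ∣ Nat.card G)
    (hA : sig G + 1 = 2 * Nat.card G) : r * r ≤ Nat.card G := by
  by_contra hc
  push Not at hc
  obtain ⟨k, hk⟩ := hd
  have hk0 : 0 < k := by
    apply Nat.pos_of_ne_zero
    rintro rfl
    have : 0 < Nat.card G := Nat.card_pos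
    omega
  have hkr : k < r := by
    rw [hk] at hc
    exact Nat.lt_of_mul_lt_mul_left hc
  have hrk : ¬ r ∣ k := fun h => by
    have := Nat.le_of_dvd hk0 h
    omega
  obtain ⟨V, hVn, hVc⟩ := normal_of_le hr hk hrk hkr.le
  have hV := minNormal_of_prime hr hVn hVc
  have h2 := card_eq_card_quotient_mul_card_subgroup V
  have hm : Nat.card (G ⧸ V) = k := by
    rw [hk, hVc] at h2
    apply Nat.eq_of_mul_eq_mul_left hr.pos
    rw [h2]; ring
  have hd' : ¬ Nat.card V ∣ Nat.card (G ⧸ V) := by rw [hVc, hm]; exact hrk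
  have h1 := sig_split hV
  have h3 : 0 < ns (TT V) := ns_pos (bot_mem_TT V)
  rw [hVc] at h1
  rw [hk] at hA
  set s := sig (G ⧸ V)
  set t := ns (TT V)
  by_cases hex : ∃ H ∈ TT V, V ⊔ H = ⊤
  · obtain ⟨H, hH, hs⟩ := hex
    have h4 : t = s := ns_eq_sig hV hd' hH hs
    obtain ⟨a, ha⟩ := hr.odd_of_ne_two hr2
    rw [h1, h4, ha] at hA
    have h5 : 2 * ((a + 1) * s) + 1 = 2 * ((2 * a + 1) * k) := by
      rw [← hA]; ring
    omega
  · have h4 : t + k ≤ s := by
      rw [← hm]
      apply ns_add_le (Set.Subset.refl _) (injOn hV hd')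
      intro N hN hN'
      exact hex ⟨N, hN, (map_eq_top_iff N).1 hN'⟩
    have h5 : s + 1 ≤ 2 * k := by
      by_contra h
      push Not at h
      have : r * (2 * k) ≤ r * s := Nat.mul_le_mul_left r (by omega)
      nlinarith
    nlinarith

/-- the centraliser of a normal subgroup of prime order has index dividing `p - 1` -/
theorem index_centralizer_dvd {p : ℕ} (hp : p.Prime) {V : Subgroup G} [V.Normal]
    (hc : Nat.card V = p) : (centralizer (V : Set G)).index ∣ p - 1 := by
  have hfact : Fact p.Prime := ⟨hp⟩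
  have hcyc : IsCyclic V := isCyclic_of_prime_card hc
  have h1 : (MulAut.conjNormal (H := V)).ker = centralizer (V : Set G) := by
    ext g
    rw [MonoidHom.mem_ker, mem_centralizer_iff]
    constructor
    · intro h x hx
      have h2 := MulAut.conjNormal_apply g (⟨x, hx⟩ : V)
      rw [h] at h2
      have h3 : x = g * x * g⁻¹ := h2
      calc x * g = (g * x * g⁻¹) * g := by rw [← h3]
        _ = g * x := by group
    · intro h
      ext x
      rw [MulAut.conjNormal_apply, ← h x x.2, mul_assoc, mul_inv_cancel, mul_one]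
      rfl
  have h2 := index_ker (MulAut.conjNormal (H := V))
  rw [h1] at h2
  rw [h2]
  have h3 := card_subgroup_dvd_card (MulAut.conjNormal (H := V)).range
  rw [IsCyclic.card_mulAut, hc, Nat.totient_prime hp] at h3
  exact h3

theorem le_centralizer_of_disjoint {V N : Subgroup G} [V.Normal] (hN : N ∈ TT V) :
    N ≤ centralizer (V : Set G) := by
  intro y hy
  rw [mem_centralizer_iff]
  intro x hx
  exact commute_of_normal_of_disjoint V N inferInstance hN.1
      (disjoint_iff.2 (by rw [inf_comm]; exact hN.2)) x y hx hy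

theorem self_le_centralizer {p : ℕ} (hp : p.Prime) {V : Subgroup G}
    (hc : Nat.card V = p) : V ≤ centralizer (V : Set G) := by
  have hfact : Fact p.Prime := ⟨hp⟩
  have hcyc : IsCyclic V := isCyclic_of_prime_card hc
  have hcomm : IsMulCommutative V := IsCyclic.isMulCommutative
  exact le_centralizer V

/-- without a complement the centraliser has index two -/
theorem index_two {p : ℕ} (hp : p.Prime) {V : Subgroup G} [V.Normal]
    (hc : Nat.card V = p) (hm : Nat.card (G ⧸ V) = p + 1)
    (hno : ¬ ∃ H ∈ TT V, V ⊔ H = ⊤) :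
    (centralizer (V : Set G)).index = 2 := by
  have h1 := index_centralizer_dvd hp hc
  have h2 : (centralizer (V : Set G)).index ∣ p + 1 := by
    have h3 := index_dvd_of_le (self_le_centralizer hp hc)
    rw [index_eq_card, index_eq_card, hm] at h3
    rw [index_eq_card]
    exact h3
  have hp2 := hp.two_le
  have h3 : (centralizer (V : Set G)).index ∣ 2 := by
    have h4 := (Nat.dvd_sub h2 h1)
    have h5 : p + 1 - (p - 1) = 2 := by omega
    rwa [h5] at h4
  rcases (Nat.dvd_prime Nat.prime_two).1 h3 with h4 | h4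
  · exfalso
    have h5 : centralizer (V : Set G) = ⊤ := index_eq_one.1 h4
    have hcop : (Nat.card V).Coprime V.index := by
      rw [index_eq_card, hm, hc]
      simp
    obtain ⟨K, hK⟩ := exists_right_complement'_of_coprime hcop
    apply hno
    refine ⟨K, ⟨?_, ?_⟩, hK.sup_eq_top⟩
    · constructor
      intro x hx g
      have hg : g ∈ V ⊔ K := by rw [hK.sup_eq_top]; exact mem_top g
      have hg' : g ∈ ((K ⊔ V : Subgroup G) : Set G) := by rw [sup_comm]; exact hg
      rw [mul_normal K V] at hg'
      obtain ⟨a, ha, b, hb, rfl⟩ := hg'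
      have h6 : x ∈ centralizer (V : Set G) := by rw [h5]; exact mem_top x
      have h7 : b * x = x * b := (mem_centralizer_iff.1 h6) b hb
      show a * b * x * (a * b)⁻¹ ∈ K
      have h8 : a * b * x * (a * b)⁻¹ = a * x * a⁻¹ := by
        rw [mul_assoc a b x, h7]; group
      rw [h8]
      exact K.mul_mem (K.mul_mem ha hx) (K.inv_mem ha)
    · rw [inf_comm]
      exact hK.disjoint.eq_bot
  · exact h4

end Pool.Agent.H86.Lei
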